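import Pool.Agent.Lib.MP_e8f12b_an.BD.Final

/-!
# A weakly stable conservative surface map which is not uniformly hyperbolic, with boundary

On surfaces with nonempty boundary the question has a negative answer. The surface is the torus
blown up at the origin in symplectic polar coordinates (a torus minus an open disc) and the map is
the lift of the cat map.
-/

open scoped Manifold ContDiff

namespace Pool.Agent.Results.MP_e8f12b_an.BoundaryCase

/-- There are a compact connected smooth surface `S` with nonempty boundary, a smooth area form
`α` on it and a smooth diffeomorphism `f` of `S` preserving `α` which is weakly stable and is not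
uniformly hyperbolic. -/
theorem result :
    ∃ (S : Type) (_ : TopologicalSpace S) (_ : ChartedSpace BD.H2 S)
      (_ : IsManifold (𝓡∂ 2) ∞ S) (α : S → BD.E2 → BD.E2 → ℝ) (f : S → S),
      CompactSpace S ∧ T2Space S ∧ ConnectedSpace S ∧ ((𝓡∂ 2).boundary S).Nonempty ∧
        BD.IsAreaForm α ∧ BD.IsDiffeo f ∧ BD.Conservative α f ∧ BD.WeaklyStable α f ∧
          ¬ BD.UniformlyHyperbolic f :=
  ⟨BD.Surf, inferInstance, inferInstance, inferInstance, BD.areaForm, BD.cat.map,
    inferInstance, inferInstance, inferInstance, BD.boundary_nonempty, BD.isAreaForm,
    BD.cat.isDiffeo_map, BD.cat.conservative, BD.weaklyStable_cat,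
    BD.cat.not_uniformlyHyperbolic⟩

end Pool.Agent.Results.MP_e8f12b_an.BoundaryCase
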